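import Pool.Agent.H55.CU.Targets

/-!
# Powers with exponents close to one (row AEX of cou_modules)
-/

set_option autoImplicit false

open MeasureTheory ProbabilityTheory Filter Topology Pool.Agent.H95 Pool.Agent.H95.Cop
  Pool.Agent.H96.Cop Pool.Agent.H55.CU
open scoped ENNReal

namespace Pool.Agent.H60.CU

theorem pf_AEX : T_AEX := by
  intro α θ hα hα1 hθ hθ1
  have hα2 : α ≤ 1 := hα1.trans (by norm_num)
  -- the logarithm
  have hlog : α * Real.log (1 / α) ≤ 1 / 2 ^ 24 := by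
    set s := Real.sqrt α with hs
    have hs0 : 0 < s := Real.sqrt_pos.mpr hα
    have hss : s ^ 2 = α := Real.sq_sqrt hα.le
    have hs1 : s ≤ 1 / 2 ^ 25 := by
      rw [hs]
      apply Real.sqrt_le_iff.mpr
      refine ⟨by positivity, ?_⟩
      refine hα1.trans (le_of_eq ?_)
      norm_num
    have h1 : Real.log (1 / α) = 2 * Real.log (1 / s) := by
      rw [← hss, one_div, one_div, ← inv_pow, Real.log_pow]
      norm_num
    have h2 : Real.log (1 / s) ≤ 1 / s - 1 := Real.log_le_sub_one_of_pos (by positivity)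
    rw [h1, ← hss]
    have h3 : s ^ 2 * (2 * Real.log (1 / s)) ≤ s ^ 2 * (2 * (1 / s)) := by
      apply mul_le_mul_of_nonneg_left _ (by positivity)
      linarith
    have h4 : s ^ 2 * (2 * (1 / s)) = 2 * s := by
      field_simp
    rw [h4] at h3
    refine h3.trans ?_
    have : (2:ℝ) * (1 / 2 ^ 25) = 1 / 2 ^ 24 := by norm_num
    linarith
  have hbase : 1 ≤ 1 / α := by
    rw [le_div_iff₀ hα]
    linarith
  -- (1/α)^t ≤ 1 + 4 * 2^(-24) * ... for 0 ≤ t ≤ 2α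
  have hpow : ∀ t : ℝ, t ≤ 2 * α → (1 / α) ^ t ≤ 1 + 1 / 2 ^ 22 := by
    intro t ht
    have h1 : (1 / α) ^ t ≤ (1 / α) ^ (2 * α) := Real.rpow_le_rpow_of_exponent_le hbase ht
    have h2 : (1 / α) ^ (2 * α) = Real.exp (2 * (α * Real.log (1 / α))) := by
      rw [Real.rpow_def_of_pos (by positivity)]
      congr 1
      ring
    have h0 : 0 ≤ α * Real.log (1 / α) := mul_nonneg hα.le (Real.log_nonneg hbase)
    have h3 : Real.exp (2 * (α * Real.log (1 / α))) ≤ Real.exp (1 / 2 ^ 23) := by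
      apply Real.exp_le_exp.mpr
      have : (2:ℝ) * (1 / 2 ^ 24) = 1 / 2 ^ 23 := by norm_num
      linarith
    have h4 : Real.exp (1 / 2 ^ 23) ≤ 1 + 2 * (1 / 2 ^ 23) :=
      exp_le_one_add_two (by positivity) (by norm_num)
    have h5 : (1:ℝ) + 2 * (1 / 2 ^ 23) = 1 + 1 / 2 ^ 22 := by norm_num
    rw [h2] at h1
    linarith
  have hsq : α ^ 2 = α ^ (2:ℝ) := by
    rw [← Real.rpow_natCast]
    norm_num
  have hinv : ∀ t : ℝ, (1 / α) ^ t = α ^ (-t) := by
    intro t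
    rw [one_div, Real.inv_rpow hα.le, Real.rpow_neg hα.le]
  refine ⟨?_, ?_, ?_, ?_, ?_, hlog⟩
  · rw [hsq]
    exact Real.rpow_le_rpow_of_exponent_ge hα hα2 (by linarith)
  · have h1 : α ^ (2 * θ) = α ^ 2 * (1 / α) ^ (2 * (1 - θ)) := by
      rw [hinv, hsq, ← Real.rpow_add hα]
      congr 1
      ring
    rw [h1]
    have h2 := hpow (2 * (1 - θ)) (by linarith)
    have h3 : α ^ 2 * (1 / α) ^ (2 * (1 - θ)) ≤ α ^ 2 * (1 + 1 / 2 ^ 22) :=
      mul_le_mul_of_nonneg_left h2 (by positivity)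
    have h4 : (0:ℝ) ≤ α ^ 2 := by positivity
    nlinarith
  · rw [Real.mul_rpow (by norm_num) hα.le]
    have h1 : (6:ℝ) ^ θ ≤ 6 := by
      calc (6:ℝ) ^ θ ≤ (6:ℝ) ^ (1:ℝ) := Real.rpow_le_rpow_of_exponent_le (by norm_num) hθ
        _ = 6 := Real.rpow_one 6
    have h2 : α ^ θ = α * (1 / α) ^ (1 - θ) := by
      rw [hinv]
      nth_rewrite 2 [← Real.rpow_one α]
      rw [← Real.rpow_add hα]
      congr 1
      ring
    have h3 := hpow (1 - θ) (by linarith)
    have h4 : α ^ θ ≤ α * (1 + 1 / 2 ^ 22) := by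
      rw [h2]
      exact mul_le_mul_of_nonneg_left h3 hα.le
    have h5 : 0 ≤ α ^ θ := Real.rpow_nonneg hα.le _
    calc (6:ℝ) ^ θ * α ^ θ ≤ 6 * (α * (1 + 1 / 2 ^ 22)) :=
          mul_le_mul h1 h4 h5 (by norm_num)
      _ ≤ 9 * α := by nlinarith
  · have h1 : ((2:ℝ) ^ 23) ^ (1 - θ) ≤ ((2:ℝ) ^ 23) ^ (((23:ℕ) : ℝ)⁻¹) := by
      apply Real.rpow_le_rpow_of_exponent_le
      · norm_num
      · refine (hθ1.trans hα1).trans ?_
        norm_num
    rwa [Real.pow_rpow_inv_natCast (by norm_num) (by norm_num)] at h1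
  · have := hpow α (by linarith)
    have h1 : (1:ℝ) + 1 / 2 ^ 22 ≤ 2 := by norm_num
    linarith

end Pool.Agent.H60.CU
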