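import Pool.Agent.H55.CU.Targets

/-!
# The moments of the charges (row PAR of cou_modules)
-/

set_option autoImplicit false

open MeasureTheory ProbabilityTheory Filter Topology Pool.Agent.H95 Pool.Agent.H95.Cop
  Pool.Agent.H96.Cop Pool.Agent.H55.CU
open scoped ENNReal

namespace Pool.Agent.H60.CU

theorem mo_pow (μ : Measure ℝ) [IsProbabilityMeasure μ]
    (hexp : ∀ t : ℝ, Integrable (fun z => Real.exp (t * z)) μ) (lam h γ : ℝ) (n : ℕ) :
    Mo (chargeLaw μ lam h) γ ^ n =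
      ENNReal.ofReal (Real.exp (n * (LM μ (-(2 * lam * γ)) - 2 * lam * γ * h))) := by
  rw [Mo_eq μ hexp, ← ENNReal.ofReal_pow (Real.exp_pos _).le, ← Real.exp_nat_mul]

/-- the exponent per site: `r = (1 + ε) / (1 + α)` -/
theorem site (α ε τ η lam h L : ℝ) (hα : 0 < α) (hlam : 0 < lam) (hε : 0 ≤ ε)
    (hh : (1 + τ) / (1 + α) * lam ≤ h)
    (hL : L ≤ (2 * ((1 + ε) / (1 + α)) ^ 2 + η) * lam ^ 2) :
    L - 2 * lam * ((1 + ε) / (1 + α)) * h ≤
      (2 * ((1 + ε) / (1 + α)) * ((ε - τ) / (1 + α)) + η) * lam ^ 2 := by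
  have h1 : 2 * lam * ((1 + ε) / (1 + α)) * ((1 + τ) / (1 + α) * lam) ≤
      2 * lam * ((1 + ε) / (1 + α)) * h := mul_le_mul_of_nonneg_left hh (by positivity)
  have h2 : (2 * ((1 + ε) / (1 + α)) * ((ε - τ) / (1 + α)) + η) * lam ^ 2 =
      (2 * ((1 + ε) / (1 + α)) ^ 2 + η) * lam ^ 2 -
        2 * lam * ((1 + ε) / (1 + α)) * ((1 + τ) / (1 + α) * lam) := by
    field_simp
    ring
  rw [h2]
  linarith

theorem pf_PAR (THP : T_THP) : T_PAR := by
  intro μ _ hexp hmean hvar α S hα hα1 hαS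
  have hα4 : α ≤ 1 / 4 := hα1.trans (by norm_num)
  have hth0 : ∀ s, 0 < th α s := fun s => by
    have := (THP α s hα hα4).1
    linarith
  have e1 := LM_upper μ hexp hmean hvar 1 (α / 2) one_pos (by positivity)
  have e2 : ∀ᶠ lam in 𝓝[>] (0 : ℝ), ∀ s ∈ Finset.range S, LM μ (-(2 * lam * th α (s + 1))) ≤
      (2 * th α (s + 1) ^ 2 + α / 2 ^ S) * lam ^ 2 := by
    rw [Filter.eventually_all_finset]
    intro s _
    exact LM_upper μ hexp hmean hvar (th α (s + 1)) (α / 2 ^ S) (hth0 _) (by positivity)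
  have e3 := LM_upper μ hexp hmean hvar (th α S) (2 ^ 45 * α ^ 2) (hth0 _) (by positivity)
  have e4 : ∀ᶠ lam in 𝓝[>] (0 : ℝ), lam < 1 / 10 := by
    have : ∀ᶠ lam in 𝓝 (0:ℝ), lam < 1 / 10 := gt_mem_nhds (by norm_num)
    exact this.filter_mono nhdsWithin_le_nhds
  filter_upwards [e1, e2, e3, e4, self_mem_nhdsWithin] with lam g1 g2 g3 g4 hlam
  have h0 : 0 < lam := hlam
  have hl2 : 0 < lam ^ 2 := pow_pos h0 2
  have hl3 : lam ^ 2 ≤ 1 / 100 := by nlinarith
  intro h k hh hk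
  -- the cell length
  have hx0 : 0 < 8 * α * lam ^ 2 := by positivity
  have hk1 : 1 / (8 * α * lam ^ 2) ≤ k := by
    rw [hk]
    exact Nat.le_ceil _
  have hk2 : (k : ℝ) ≤ 1 / (8 * α * lam ^ 2) + 1 := by
    rw [hk]
    exact (Nat.ceil_lt_add_one (by positivity)).le
  have hk3 : 1 / 8 ≤ α * lam ^ 2 * k := by
    rw [div_le_iff₀ hx0] at hk1
    linarith
  have hk4 : α * lam ^ 2 * k ≤ 1 / 8 + α * lam ^ 2 := by
    have h1 : 8 * α * lam ^ 2 * k ≤ 8 * α * lam ^ 2 * (1 / (8 * α * lam ^ 2) + 1) :=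
      mul_le_mul_of_nonneg_left hk2 hx0.le
    have h2 : 8 * α * lam ^ 2 * (1 / (8 * α * lam ^ 2) + 1) = 1 + 8 * α * lam ^ 2 := by
      field_simp
    rw [h2] at h1
    linarith
  have hal : α * lam ^ 2 ≤ 1 / 400 := by
    have : α * lam ^ 2 ≤ 1 / 4 * (1 / 100) := mul_le_mul hα4 hl3 hl2.le (by norm_num)
    linarith
  set τ : ℝ := 2 ^ 46 * α ^ 2 with hτ
  have hτ0 : 0 ≤ τ := by positivity
  refine ⟨5 / 2 * α * lam ^ 2, by positivity, ?_, ?_, ?_, ?_⟩
  · have : 5 / 2 * α * lam ^ 2 * k = 5 / 2 * (α * lam ^ 2 * k) := by ring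
    rw [this]
    linarith
  · rw [Mo_eq μ hexp]
    apply ENNReal.ofReal_le_ofReal
    apply Real.exp_le_exp.mpr
    have h1 := site α α τ (α / 2) lam h (LM μ (-(2 * lam * 1))) hα h0 hα.le hh (by
      rw [div_self (by positivity)]
      exact g1)
    rw [div_self (by positivity : (1 + α) ≠ 0)] at h1
    refine h1.trans ?_
    have h2 : (α - τ) / (1 + α) ≤ α := by
      rw [div_le_iff₀ (by positivity)]
      nlinarith
    have h3 : 2 * 1 * ((α - τ) / (1 + α)) + α / 2 ≤ 5 / 2 * α := by linarith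
    have h4 := mul_le_mul_of_nonneg_right h3 hl2.le
    linarith
  · intro s hs n hn
    rw [mo_pow μ hexp]
    have hpS : (2:ℝ) * 2 ^ s ≤ 2 ^ S := by
      rw [← pow_succ']
      exact pow_le_pow_right₀ (by norm_num) hs
    have hp0 : (0:ℝ) < 2 ^ s := by positivity
    have hpS0 : (0:ℝ) < 2 ^ S := by positivity
    set ε : ℝ := α / 2 ^ (s + 1) with hε
    have hε0 : 0 ≤ ε := by positivity
    have hε1 : ε ≤ α := by
      rw [hε]
      apply div_le_self hα.le
      exact one_le_pow₀ (by norm_num)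
    have hth : th α (s + 1) = (1 + ε) / (1 + α) := rfl
    have h1 := site α ε τ (α / 2 ^ S) lam h (LM μ (-(2 * lam * th α (s + 1)))) hα h0 hε0 hh (by
      have := g2 s (Finset.mem_range.mpr hs)
      rw [hth] at this ⊢
      exact this)
    rw [← hth] at h1
    have hth1 : th α (s + 1) ≤ 1 := (THP α (s + 1) hα hα4).2.1
    have h2 : 2 * th α (s + 1) * ((ε - τ) / (1 + α)) ≤ 2 * ε := by
      have h3 : (ε - τ) / (1 + α) ≤ ε := by
        rw [div_le_iff₀ (by positivity)]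
        nlinarith
      have h4 : 2 * th α (s + 1) * ((ε - τ) / (1 + α)) ≤ 2 * th α (s + 1) * ε :=
        mul_le_mul_of_nonneg_left h3 (by have := hth0 (s + 1); positivity)
      have h5 : 2 * th α (s + 1) * ε ≤ 2 * 1 * ε := by gcongr
      linarith
    have h3 : LM μ (-(2 * lam * th α (s + 1))) - 2 * lam * th α (s + 1) * h ≤
        (2 * ε + α / 2 ^ S) * lam ^ 2 := by
      refine h1.trans ?_
      apply mul_le_mul_of_nonneg_right _ hl2.le
      linarith
    have hn' : (n : ℝ) ≤ 2 * 2 ^ s * k := by exact_mod_cast hn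
    have hk0 : (0:ℝ) ≤ k := Nat.cast_nonneg _
    have h4 : (n : ℝ) * (LM μ (-(2 * lam * th α (s + 1))) - 2 * lam * th α (s + 1) * h) ≤ 1 := by
      have h5 : (n : ℝ) * (LM μ (-(2 * lam * th α (s + 1))) - 2 * lam * th α (s + 1) * h) ≤
          n * ((2 * ε + α / 2 ^ S) * lam ^ 2) :=
        mul_le_mul_of_nonneg_left h3 (Nat.cast_nonneg _)
      have h6 : (n : ℝ) * ((2 * ε + α / 2 ^ S) * lam ^ 2) ≤
          (2 * 2 ^ s * k) * ((2 * ε + α / 2 ^ S) * lam ^ 2) :=
        mul_le_mul_of_nonneg_right hn' (by positivity)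
      have h7 : (2 * 2 ^ s * k) * ((2 * ε + α / 2 ^ S) * lam ^ 2) =
          2 * (α * lam ^ 2 * k) + (2 * 2 ^ s / 2 ^ S) * (α * lam ^ 2 * k) := by
        rw [hε, pow_succ]
        field_simp
      have h8 : (2:ℝ) * 2 ^ s / 2 ^ S ≤ 1 := by
        rw [div_le_one hpS0]
        exact hpS
      have h9 : (2 * 2 ^ s / 2 ^ S) * (α * lam ^ 2 * k) ≤ 1 * (α * lam ^ 2 * k) :=
        mul_le_mul_of_nonneg_right h8 (by positivity)
      rw [h7] at h6
      linarith
    have h10 : Real.exp ((n : ℝ) *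
        (LM μ (-(2 * lam * th α (s + 1))) - 2 * lam * th α (s + 1) * h)) ≤ 3 :=
      (Real.exp_le_exp.mpr h4).trans (Real.exp_one_lt_d9.le.trans (by norm_num))
    calc ENNReal.ofReal _ ≤ ENNReal.ofReal 3 := ENNReal.ofReal_le_ofReal h10
      _ = 3 := by norm_num
  · rw [mo_pow μ hexp]
    apply ENNReal.ofReal_le_ofReal
    apply Real.exp_le_exp.mpr
    have hpS0 : (0:ℝ) < 2 ^ S := by positivity
    set ε : ℝ := α / 2 ^ S with hε
    have hε0 : 0 ≤ ε := by positivity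
    have hε1 : ε ≤ 2 ^ 38 * α ^ 2 := by
      rw [hε, div_le_iff₀ hpS0]
      have : 2 ^ 38 * α ^ 2 * 2 ^ S = 2 ^ 38 * α * (α * 2 ^ S) := by ring
      rw [this]
      have h1 : 2 ^ 38 * α * (1 / 2 ^ 38) ≤ 2 ^ 38 * α * (α * 2 ^ S) :=
        mul_le_mul_of_nonneg_left hαS (by positivity)
      have h2 : 2 ^ 38 * α * (1 / 2 ^ 38) = α := by ring
      linarith
    have hth : th α S = (1 + ε) / (1 + α) := rfl
    have h1 := site α ε τ (2 ^ 45 * α ^ 2) lam h (LM μ (-(2 * lam * th α S))) hα h0 hε0 hh (by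
      rw [hth] at g3 ⊢
      exact g3)
    rw [← hth] at h1
    set σ : ℝ := 2 ^ 45 * α ^ 2 with hσ
    have hσ0 : 0 < σ := by positivity
    have hτσ : τ = 2 * σ := by
      rw [hτ, hσ]
      ring
    have hεσ : ε ≤ σ / 2 ^ 7 := by
      refine hε1.trans (le_of_eq ?_)
      rw [hσ]
      ring
    have hr1 : 1 / (1 + α) ≤ th α S := by
      rw [hth]
      gcongr
      linarith
    have h2 : (ε - τ) / (1 + α) ≤ -(127 / 64 * σ) / (1 + α) := by
      apply div_le_div_of_nonneg_right _ (by positivity)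
      rw [hτσ]
      linarith
    have h3 : 2 * th α S * ((ε - τ) / (1 + α)) ≤ -(3 * σ) := by
      have h4 : 2 * th α S * ((ε - τ) / (1 + α)) ≤
          2 * th α S * (-(127 / 64 * σ) / (1 + α)) :=
        mul_le_mul_of_nonneg_left h2 (by have := hth0 S; positivity)
      have h5 : 2 * th α S * (-(127 / 64 * σ) / (1 + α)) ≤
          2 * (1 / (1 + α)) * (-(127 / 64 * σ) / (1 + α)) := by
        apply mul_le_mul_of_nonpos_right
        · linarith
        · apply div_nonpos_of_nonpos_of_nonneg _ (by positivity)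
          linarith
      have h6 : 2 * (1 / (1 + α)) * (-(127 / 64 * σ) / (1 + α)) =
          -(127 / 32 * σ / (1 + α) ^ 2) := by
        field_simp
        ring
      have h7 : 3 * σ ≤ 127 / 32 * σ / (1 + α) ^ 2 := by
        rw [le_div_iff₀ (by positivity)]
        have h8 : (1 + α) ^ 2 ≤ 5 / 4 := by
          have : α ≤ 1 / 16 := hα1.trans (by norm_num)
          nlinarith
        have h9 : 3 * σ * (1 + α) ^ 2 ≤ 3 * σ * (5 / 4) :=
          mul_le_mul_of_nonneg_left h8 (by positivity)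
        linarith
      rw [h6] at h5
      linarith
    have h4 : LM μ (-(2 * lam * th α S)) - 2 * lam * th α S * h ≤ -(2 * σ) * lam ^ 2 := by
      refine h1.trans ?_
      apply mul_le_mul_of_nonneg_right _ hl2.le
      linarith
    have h5 : (k : ℝ) * (LM μ (-(2 * lam * th α S)) - 2 * lam * th α S * h) ≤
        k * (-(2 * σ) * lam ^ 2) := mul_le_mul_of_nonneg_left h4 (Nat.cast_nonneg _)
    refine h5.trans ?_
    have h6 : (k : ℝ) * (-(2 * σ) * lam ^ 2) = -(2 ^ 46 * α * (α * lam ^ 2 * k)) := by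
      rw [hσ]
      ring
    rw [h6]
    have h7 : 2 ^ 46 * α * (1 / 8) ≤ 2 ^ 46 * α * (α * lam ^ 2 * k) :=
      mul_le_mul_of_nonneg_left hk3 (by positivity)
    have h8 : 2 ^ 46 * α * (1 / 8) = 8 * (2 ^ 40 * α) := by ring
    have h9 : 0 < 2 ^ 40 * α := by positivity
    linarith

end Pool.Agent.H60.CU
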